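import Mathlib

/-! The numerator `N_α` is not unimodal in type `B₂` for `α = 2 α₁ + 2 α₂`. -/

set_option autoImplicit false

namespace Pool.Agent.Results.MP_4223bd_al.TypeB

open Polynomial Finset

section defs
variable {n : ℕ} (G : Matrix (Fin n) (Fin n) ℤ)

/-- `(β, β) / 2` for the Gram matrix `G` of the simple roots. -/
def half (β : Fin n → ℕ) : ℤ := (∑ i, ∑ j, G i j * β i * β j) / 2

/-- `(q)_α`, with `d i = G i i / 2`. -/
noncomputable def qf (α : Fin n → ℕ) : RatFunc ℚ :=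
  ∏ i, ∏ j ∈ Icc 1 (α i), (1 - RatFunc.X ^ (G i i / 2 * j))

/-- The functions `J_α`, by the recursion with the term `β = α` moved to the left. -/
noncomputable def J (α : Fin n → ℕ) : RatFunc ℚ :=
  if α = 0 then 1 else (1 - RatFunc.X ^ half G α)⁻¹ *
    ∑ β ∈ (Iio α).attach, RatFunc.X ^ half G β / qf G (α - β) * J β
termination_by ∑ i, α i
decreasing_by
  obtain ⟨h, i, hi⟩ := Pi.lt_def.1 (mem_Iio.1 β.2)
  exact sum_lt_sum (fun j _ => h j) ⟨i, mem_univ i, hi⟩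

/-- Unimodal polynomials. -/
def Unimodal (P : ℚ[X]) : Prop :=
  ∃ m ≤ P.natDegree, (∀ i < m, P.coeff i ≤ P.coeff (i + 1)) ∧
    ∀ i, m ≤ i → i < P.natDegree → P.coeff (i + 1) ≤ P.coeff i

end defs

def B : Matrix (Fin 2) (Fin 2) ℤ := !![4, -2; -2, 2]

theorem J_eq (α : Fin 2 → ℕ) (h : α ≠ 0) : J B α = (1 - RatFunc.X ^ half B α)⁻¹ *
    ∑ β ∈ Iio α, RatFunc.X ^ half B β / qf B (α - β) * J B β := by
  rw [J, if_neg h, sum_attach (Iio α) fun β => RatFunc.X ^ half B β / qf B (α - β) * J B β]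

theorem ne (k : ℕ) : (1 - RatFunc.X ^ (k + 1) : RatFunc ℚ) ≠ 0 := fun h => by
  have : (1 - X ^ (k + 1) : ℚ[X]) = 0 := RatFunc.algebraMap_injective ℚ (by simpa using h)
  simpa using congrArg (eval 0) this

theorem step (α : Fin 2 → ℕ) (h : α ≠ 0) (k : ℕ) (hk : half B α = (k + 1 : ℕ)) (v : RatFunc ℚ)
    (e : ∑ β ∈ Iio α, RatFunc.X ^ half B β / qf B (α - β) * J B β =
      (1 - RatFunc.X ^ (k + 1)) * v) : J B α = v := by
  rw [J_eq α h, e, hk, zpow_natCast, inv_mul_cancel_left₀ (ne k)]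

theorem main : J B ![2, 2] = (1 + RatFunc.X + 3 * RatFunc.X ^ 2 + 2 * RatFunc.X ^ 3 +
    5 * RatFunc.X ^ 4 + 2 * RatFunc.X ^ 5 + 3 * RatFunc.X ^ 6 + RatFunc.X ^ 7 + RatFunc.X ^ 8) /
      (qf B ![2, 2]) ^ 2 := by
  set q : RatFunc ℚ := RatFunc.X with hq
  have n1 : 1 - q ≠ 0 := by simpa using ne 0
  have n2 : 1 - q ^ 2 ≠ 0 := ne 1
  have n4 : 1 - q ^ 4 ≠ 0 := ne 3
  have f : ∀ a b : ℕ, qf B ![a, b] = (∏ j ∈ Icc 1 a, (1 - q ^ (2 * j))) *
      ∏ j ∈ Icc 1 b, (1 - q ^ j) := fun a b => by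
    simp [qf, B, ← zpow_natCast, hq]
  have s : ∀ a b c d : ℕ, (![a, b] - ![c, d] : Fin 2 → ℕ) = ![a - c, b - d] := fun a b c d => by
    ext i; fin_cases i <;> rfl
  have h : ∀ a b : ℕ, half B ![a, b] = ((a - b : ℤ).natAbs ^ 2 + a ^ 2 : ℕ) := fun a b => by
    simp only [half, B, Fin.sum_univ_two]
    simp
    rw [Int.ediv_eq_iff_eq_mul_left (by norm_num) ⟨(a - b) ^ 2 + a ^ 2, by ring⟩]
    ring
  have i2 : Icc 1 2 = ({1, 2} : Finset ℕ) := rfl
  have j00 : J B ![0, 0] = 1 := by rw [J, if_pos (by decide)]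
  have j01 : J B ![0, 1] = 1 / (1 - q) ^ 2 := step _ (by decide) 0 (by decide) _ (by
    rw [show Iio ![0, 1] = {![0, 0]} by decide]
    simp [s, f, h, j00, ← hq]; field_simp)
  have j10 : J B ![1, 0] = 1 / (1 - q ^ 2) ^ 2 := step _ (by decide) 1 (by decide) _ (by
    rw [show Iio ![1, 0] = {![0, 0]} by decide]
    simp [s, f, h, j00, ← hq]; field_simp)
  have j02 : J B ![0, 2] = 1 / ((1 - q) * (1 - q ^ 2)) ^ 2 := step _ (by decide) 3 (by decide) _ (by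
    rw [show Iio ![0, 2] = {![0, 0], ![0, 1]} by decide]
    simp [s, f, h, j00, j01, ← hq, i2]; field_simp; ring)
  have j11 : J B ![1, 1] = (1 + q + q ^ 2) / ((1 - q ^ 2) * (1 - q)) ^ 2 :=
    step _ (by decide) 0 (by decide) _ (by
      rw [show Iio ![1, 1] = {![0, 0], ![0, 1], ![1, 0]} by decide]
      simp [s, f, h, j00, j01, j10, ← hq]; field_simp; ring)
  have j20 : J B ![2, 0] = 1 / ((1 - q ^ 2) * (1 - q ^ 4)) ^ 2 :=
    step _ (by decide) 7 (by decide) _ (by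
      rw [show Iio ![2, 0] = {![0, 0], ![1, 0]} by decide]
      simp [s, f, h, j00, j10, ← hq, i2]; field_simp; ring)
  have j12 : J B ![1, 2] = (1 + q + 3 * q ^ 2 + q ^ 3 + q ^ 4) /
      ((1 - q ^ 2) * ((1 - q) * (1 - q ^ 2))) ^ 2 :=
    step _ (by decide) 1 (by decide) _ (by
      rw [show Iio ![1, 2] = {![0, 0], ![0, 1], ![1, 0], ![0, 2], ![1, 1]} by decide]
      simp [s, f, h, j00, j01, j10, j02, j11, ← hq, i2]; field_simp; ring)
  have j21 : J B ![2, 1] = (1 + q + q ^ 2 + q ^ 3 + q ^ 4) /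
      ((1 - q ^ 2) * (1 - q ^ 4) * (1 - q)) ^ 2 :=
    step _ (by decide) 4 (by decide) _ (by
      rw [show Iio ![2, 1] = {![0, 0], ![0, 1], ![1, 0], ![2, 0], ![1, 1]} by decide]
      simp [s, f, h, j00, j01, j10, j20, j11, ← hq, i2]; field_simp; ring)
  refine step _ (by decide) 3 (by decide) _ ?_
  rw [show Iio ![2, 2] = {![0, 0], ![0, 1], ![1, 0], ![0, 2], ![1, 1], ![2, 0], ![1, 2], ![2, 1]}
    by decide]
  simp [s, f, h, j00, j01, j10, j02, j11, j20, j12, j21, ← hq, i2]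
  field_simp
  ring

theorem result : ∃ (α : Fin 2 → ℕ) (P : ℚ[X]),
    algebraMap ℚ[X] (RatFunc ℚ) P =
      qf (CartanMatrix.B 2 * Matrix.diagonal ![2, 1]) α ^ 2 *
        J (CartanMatrix.B 2 * Matrix.diagonal ![2, 1]) α ∧ ¬Unimodal P := by
  rw [show CartanMatrix.B 2 * Matrix.diagonal ![2, 1] = B by decide]
  refine ⟨![2, 2], 1 + X + 3 * X ^ 2 + 2 * X ^ 3 + 5 * X ^ 4 + 2 * X ^ 5 + 3 * X ^ 6 + X ^ 7 + X ^ 8,
    ?_, ?_⟩
  · have : qf B ![2, 2] ≠ 0 := by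
      simp only [qf, prod_ne_zero_iff]
      intro i _ j hj
      obtain ⟨k, rfl⟩ : ∃ k, j = k + 1 := ⟨j - 1, by have := (mem_Icc.1 hj).1; omega⟩
      fin_cases i
      · simpa [B, ← zpow_natCast, mul_add, add_assoc, one_add_one_eq_two] using ne (2 * k + 1)
      · simpa [B, ← zpow_natCast] using ne k
    rw [main, mul_div_cancel₀ _ (pow_ne_zero _ this)]
    simp [map_ofNat]
  · rintro ⟨m, -, h1, h2⟩
    have hd : (1 + X + 3 * X ^ 2 + 2 * X ^ 3 + 5 * X ^ 4 + 2 * X ^ 5 + 3 * X ^ 6 + X ^ 7 + X ^ 8 :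
      ℚ[X]).natDegree = 8 := by compute_degree!
    rcases le_or_gt m 3 with h | h
    · have := h2 3 h (by omega)
      norm_num [coeff_X, coeff_one, coeff_X_pow] at this
    · have := h1 2 (by omega)
      norm_num [coeff_X, coeff_one, coeff_X_pow] at this

end Pool.Agent.Results.MP_4223bd_al.TypeB
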